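import Mathlib
import Pool.Agent.Run7.h752.Main

/-!
# A unicellular operator whose spectrum has at least two points

On every separable infinite-dimensional complex Hilbert space there is a bounded operator whose
closed invariant subspaces form a chain and whose spectrum contains two distinct points.
The operator is built on the square-summable sequences in `Pool.Agent.Run7.h752.Main`.
-/

namespace Pool.Agent.Results.MP_546dcb_an.UnicellularSpectrum

open Run7.h752.Uni

private lemma exists_iso (H : Type*) [NormedAddCommGroup H] [InnerProductSpace ℂ H]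
    [CompleteSpace H] [TopologicalSpace.SeparableSpace H] (hH : ¬ FiniteDimensional ℂ H) :
    Nonempty (H ≃ₗᵢ[ℂ] lp (fun _ : ℕ => ℂ) 2) := by
  obtain ⟨w, b, hb⟩ := exists_hilbertBasis ℂ H
  have hcount : Countable w := by
    have hd : Pairwise (Function.onFun Disjoint fun i : w => Metric.ball (b i) (1 / 2)) := by
      intro i j hij
      apply Metric.ball_disjoint_ball
      rw [dist_eq_norm]
      have h1 : ‖b i - b j‖ ^ 2 = 2 := by
        rw [@norm_sub_sq ℂ, b.orthonormal.1 i, b.orthonormal.1 j, b.orthonormal.2 hij]
        norm_num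
      nlinarith [norm_nonneg (b i - b j)]
    have hs : ∀ i : w, IsOpen (Metric.ball (b i) (1 / 2)) := fun i => Metric.isOpen_ball
    have hn : ∀ i : w, (Metric.ball (b i) (1 / 2)).Nonempty := fun i =>
      ⟨b i, Metric.mem_ball_self (by norm_num)⟩
    exact Pairwise.countable_of_isOpen_disjoint hd hs hn
  have hinf : Infinite w := by
    by_contra hfin
    rw [not_infinite_iff_finite] at hfin
    apply hH
    have h1 : (Submodule.span ℂ (Set.range b)).topologicalClosure = ⊤ := b.dense_span
    have h2 : FiniteDimensional ℂ (Submodule.span ℂ (Set.range b)) :=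
      FiniteDimensional.span_of_finite ℂ (Set.finite_range b)
    have h3 : IsClosed ((Submodule.span ℂ (Set.range b) : Submodule ℂ H) : Set H) :=
      Submodule.closed_of_finiteDimensional _
    rw [h3.submodule_topologicalClosure_eq] at h1
    rw [h1] at h2
    exact Module.Finite.equiv (Submodule.topEquiv (R := ℂ) (M := H))
  obtain ⟨hden⟩ := nonempty_denumerable w
  let e : ℕ ≃ w := (Denumerable.eqv w).symm
  have ho : Orthonormal ℂ (b ∘ e) := b.orthonormal.comp e e.injective
  have hsp : ⊤ ≤ (Submodule.span ℂ (Set.range (b ∘ e))).topologicalClosure := by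
    rw [e.surjective.range_comp, b.dense_span]
  exact ⟨(HilbertBasis.mk ho hsp).repr⟩

/-- **Unicellular operators with non-degenerate spectrum.**
On every complex separable infinite-dimensional Hilbert space `H` there is a bounded operator `A`
whose closed invariant subspaces are totally ordered by inclusion and whose spectrum contains two
distinct points. -/
theorem result (H : Type*) [NormedAddCommGroup H] [InnerProductSpace ℂ H] [CompleteSpace H]
    [TopologicalSpace.SeparableSpace H] (hH : ¬ FiniteDimensional ℂ H) :
    ∃ A : H →L[ℂ] H,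
      (∀ M N : Submodule ℂ H, IsClosed (M : Set H) → IsClosed (N : Set H) →
        (∀ x ∈ M, A x ∈ M) → (∀ x ∈ N, A x ∈ N) → M ≤ N ∨ N ≤ M) ∧
      ∃ a ∈ spectrum ℂ A, ∃ b ∈ spectrum ℂ A, a ≠ b := by
  obtain ⟨L⟩ := exists_iso H hH
  let C := L.symm.toContinuousLinearEquiv.conjContinuousAlgEquiv
  refine ⟨C TT, ?_, ?_⟩
  · intro M N hMc hNc hM hN
    have key : ∀ M : Submodule ℂ H, (∀ x ∈ M, C TT x ∈ M) →
        ∀ x ∈ M.comap L.symm.toLinearEquiv.toLinearMap,
          TT x ∈ M.comap L.symm.toLinearEquiv.toLinearMap := by
      intro M hM x hx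
      have h1 := hM (L.symm x) hx
      have h2 : C TT (L.symm x) = L.symm (TT x) := by
        change L.symm (TT (L (L.symm x))) = _
        rw [L.apply_symm_apply]
      rw [h2] at h1
      exact h1
    have hcl : ∀ M : Submodule ℂ H, IsClosed (M : Set H) →
        IsClosed (M.comap L.symm.toLinearEquiv.toLinearMap : Set (lp (fun _ : ℕ => ℂ) 2)) := by
      intro M hM
      exact hM.preimage L.symm.continuous
    have hmono : ∀ M N : Submodule ℂ H, M.comap L.symm.toLinearEquiv.toLinearMap ≤
        N.comap L.symm.toLinearEquiv.toLinearMap → M ≤ N := by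
      intro M N h x hx
      have h1 : L x ∈ M.comap L.symm.toLinearEquiv.toLinearMap := by
        change L.symm (L x) ∈ M
        rwa [L.symm_apply_apply]
      have h2 := h h1
      change L.symm (L x) ∈ N at h2
      rwa [L.symm_apply_apply] at h2
    rcases TT_unicellular _ _ (hcl M hMc) (key M hM) (hcl N hNc) (key N hN) with h | h
    · exact Or.inl (hmono _ _ h)
    · exact Or.inr (hmono _ _ h)
  · have hs : spectrum ℂ (C TT) = spectrum ℂ TT := AlgEquiv.spectrum_eq C TT
    obtain ⟨z, hz, hz0⟩ := exists_nonzero_spectrum
    exact ⟨z, by rw [hs]; exact hz, 0, by rw [hs]; exact zero_mem_spectrum, hz0⟩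

end Pool.Agent.Results.MP_546dcb_an.UnicellularSpectrum
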